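import Mathlib

/-!
# The big polynomial ring need not be a polynomial algebra over its bounded-denominator subring

For each prime `p` we give an integral domain `A` of characteristic `p` with perfect fraction
field `K` and a linear series `ℓ = ∑ u_i x_i` over `K` with unbounded denominators whose `p`-th
power has coefficients in `A`.  So `R` is not isomorphic to a polynomial algebra over `R♭`.
-/

open MvPowerSeries

namespace Pool.Agent.Results.MP_5fe329_al.NotPolynomial

universe u v w

/-- The series `f` has monomials of bounded degree only. -/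
def IsBdd {K : Type u} [Field K] (f : MvPowerSeries ℕ K) : Prop :=
  ∃ d : ℕ, ∀ m : ℕ →₀ ℕ, d < m.degree → coeff m f = 0

theorem IsBdd.mul {K : Type u} [Field K] {f g : MvPowerSeries ℕ K} (hf : IsBdd f)
    (hg : IsBdd g) : IsBdd (f * g) := by
  obtain ⟨d, hd⟩ := hf
  obtain ⟨e, he⟩ := hg
  refine ⟨d + e, fun m hm => ?_⟩
  rw [coeff_mul]
  refine Finset.sum_eq_zero fun x hx => ?_
  rw [Finset.HasAntidiagonal.mem_antidiagonal] at hx
  have h1 : x.1.degree + x.2.degree = m.degree := by rw [← map_add, hx]
  rcases lt_or_ge d x.1.degree with h | h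
  · rw [hd _ h, zero_mul]
  · rw [he _ (by omega), mul_zero]

theorem IsBdd.one {K : Type u} [Field K] : IsBdd (1 : MvPowerSeries ℕ K) :=
  ⟨0, fun m hm => by
    classical
    rw [coeff_one, if_neg]
    rintro rfl
    simp at hm⟩

theorem IsBdd.add {K : Type u} [Field K] {f g : MvPowerSeries ℕ K} (hf : IsBdd f)
    (hg : IsBdd g) : IsBdd (f + g) := by
  obtain ⟨d, hd⟩ := hf
  obtain ⟨e, he⟩ := hg
  refine ⟨d + e, fun m hm => ?_⟩
  rw [map_add, hd _ (by omega), he _ (by omega), add_zero]

theorem IsBdd.zero {K : Type u} [Field K] : IsBdd (0 : MvPowerSeries ℕ K) :=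
  ⟨0, fun m _ => by simp⟩

theorem IsBdd.neg {K : Type u} [Field K] {f : MvPowerSeries ℕ K} (hf : IsBdd f) :
    IsBdd (-f) := by
  obtain ⟨d, hd⟩ := hf
  exact ⟨d, fun m hm => by rw [map_neg, hd _ hm, neg_zero]⟩

/-- The ring `R` over the field `K`: the series in the variables `x_0, x_1, …` (formal, possibly
infinite, `K`-linear combinations of monomials) whose monomials have bounded degree. -/
def bddSeries (K : Type u) [Field K] : Subring (MvPowerSeries ℕ K) where
  carrier := {f | IsBdd f}
  mul_mem' := IsBdd.mul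
  one_mem' := IsBdd.one
  add_mem' := IsBdd.add
  zero_mem' := IsBdd.zero
  neg_mem' := IsBdd.neg

/-- The series `f` has bounded denominators: there is a nonzero `a ∈ A` such that all
coefficients of `a f` lie in `A`. -/
def IsFlat (A : Type v) [CommRing A] {K : Type u} [Field K] [Algebra A K]
    (f : MvPowerSeries ℕ K) : Prop :=
  ∃ a : A, a ≠ 0 ∧ ∀ m : ℕ →₀ ℕ, ∃ c : A, algebraMap A K c = algebraMap A K a * coeff m f

section flat

variable {A : Type v} [CommRing A] [IsDomain A] {K : Type u} [Field K] [Algebra A K]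

theorem IsFlat.mul {f g : MvPowerSeries ℕ K} (hf : IsFlat A f) (hg : IsFlat A g) :
    IsFlat A (f * g) := by
  obtain ⟨a, ha, ha'⟩ := hf
  obtain ⟨b, hb, hb'⟩ := hg
  choose c hc using ha'
  choose d hd using hb'
  refine ⟨a * b, mul_ne_zero ha hb, fun m => ?_⟩
  refine ⟨∑ x ∈ Finset.HasAntidiagonal.antidiagonal m, c x.1 * d x.2, ?_⟩
  rw [coeff_mul, map_sum, Finset.mul_sum]
  refine Finset.sum_congr rfl fun x _ => ?_
  rw [map_mul, map_mul, hc, hd]
  ring

theorem IsFlat.one : IsFlat A (1 : MvPowerSeries ℕ K) :=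
  ⟨1, one_ne_zero, fun m => by
    classical
    rw [coeff_one, map_one, one_mul]
    split
    · exact ⟨1, map_one _⟩
    · exact ⟨0, map_zero _⟩⟩

theorem IsFlat.add {f g : MvPowerSeries ℕ K} (hf : IsFlat A f) (hg : IsFlat A g) :
    IsFlat A (f + g) := by
  obtain ⟨a, ha, ha'⟩ := hf
  obtain ⟨b, hb, hb'⟩ := hg
  choose c hc using ha'
  choose d hd using hb'
  refine ⟨a * b, mul_ne_zero ha hb, fun m => ⟨b * c m + a * d m, ?_⟩⟩
  rw [map_add, map_add, map_mul, map_mul, map_mul, hc, hd]
  ring

theorem IsFlat.zero : IsFlat A (0 : MvPowerSeries ℕ K) :=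
  ⟨1, one_ne_zero, fun m => ⟨0, by simp⟩⟩

theorem IsFlat.neg {f : MvPowerSeries ℕ K} (hf : IsFlat A f) : IsFlat A (-f) := by
  obtain ⟨a, ha, ha'⟩ := hf
  choose c hc using ha'
  refine ⟨a, ha, fun m => ⟨-c m, ?_⟩⟩
  rw [map_neg, map_neg, hc]
  ring

end flat

/-- The subring `R♭` of `R` of the series with bounded denominators: there is a nonzero `a ∈ A`
such that all coefficients of `a f` lie in `A`. -/
def flat (A : Type v) [CommRing A] [IsDomain A] (K : Type u) [Field K] [Algebra A K] :
    Subring (bddSeries K) where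
  carrier := {f | IsFlat A (f : MvPowerSeries ℕ K)}
  mul_mem' := IsFlat.mul
  one_mem' := IsFlat.one
  add_mem' := IsFlat.add
  zero_mem' := IsFlat.zero
  neg_mem' := IsFlat.neg

/-- `R` is isomorphic, as an `R♭`-algebra, to the polynomial ring over `R♭` in a family of
variables indexed by `I`. -/
def IsPolyOver (A : Type v) [CommRing A] [IsDomain A] (K : Type u) [Field K] [Algebra A K]
    (I : Type w) : Prop :=
  Nonempty (MvPolynomial I (flat A K) ≃ₐ[flat A K] bddSeries K)

section general

/-- Coefficients of a `p`-th power in characteristic `p`. -/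
theorem coeff_pow_mem {K : Type u} [Field K] (p : ℕ) [hp : Fact p.Prime] [CharP K p]
    (S : Subring K) (f : MvPowerSeries ℕ K) (h : ∀ d, (coeff d f) ^ p ∈ S) (m : ℕ →₀ ℕ) :
    coeff m (f ^ p) ∈ S := by
  have hp1 : 1 ≤ p := hp.out.one_lt.le
  have h1 : coeff m (f ^ p) = MvPolynomial.coeff m ((trunc' K m f) ^ p) := by
    have := congrArg (MvPolynomial.coeff m) (trunc'_trunc'_pow (n := m) hp1 f)
    classical
    rw [coeff_trunc', coeff_trunc', if_pos le_rfl, if_pos le_rfl] at this
    rw [← this, ← MvPolynomial.coe_pow, MvPolynomial.coeff_coe]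
  rw [h1]
  set g := trunc' K m f with hg
  have h2 : ∀ d, (MvPolynomial.coeff d g) ^ p ∈ S := by
    intro d
    classical
    rw [hg, coeff_trunc']
    split
    · exact h d
    · rw [zero_pow (by omega)]
      exact S.zero_mem
  have h3 : g ^ p = ∑ d ∈ g.support, MvPolynomial.monomial (p • d)
      ((MvPolynomial.coeff d g) ^ p) := by
    conv_lhs => rw [MvPolynomial.as_sum g]
    rw [sum_pow_char]
    refine Finset.sum_congr rfl fun d _ => ?_
    rw [MvPolynomial.monomial_pow]
  rw [h3, MvPolynomial.coeff_sum]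
  refine sum_mem fun d _ => ?_
  classical
  rw [MvPolynomial.coeff_monomial]
  split
  · exact h2 d
  · exact S.zero_mem

variable {A : Type v} [CommRing A] [IsDomain A] {K : Type u} [Field K] [Algebra A K]

theorem totalDegree_pow' {I : Type w} {S : Type v} [CommRing S] [IsDomain S]
    (f : MvPolynomial I S) (n : ℕ) : (f ^ n).totalDegree = n * f.totalDegree := by
  rcases eq_or_ne f 0 with rfl | hf
  · rcases Nat.eq_zero_or_pos n with rfl | hn
    · simp
    · rw [zero_pow (by omega)]; simp
  · induction n with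
    | zero => simp
    | succ n ih =>
      rw [pow_succ, MvPolynomial.totalDegree_mul_of_isDomain (pow_ne_zero _ hf) hf, ih]
      ring

/-- The linear series `∑ u_i x_i`. -/
noncomputable def lin (u : ℕ → K) : MvPowerSeries ℕ K :=
  fun m => ∑ i ∈ m.support, if m = Finsupp.single i 1 then u i else 0

theorem coeff_lin_single (u : ℕ → K) (i : ℕ) : coeff (Finsupp.single i 1) (lin u) = u i := by
  show lin u (Finsupp.single i 1) = u i
  unfold lin
  simp [Finsupp.support_single]

theorem coeff_lin_cases (u : ℕ → K) (m : ℕ →₀ ℕ) :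
    coeff m (lin u) = 0 ∨ ∃ i, m = Finsupp.single i 1 ∧ coeff m (lin u) = u i := by
  by_cases h : ∃ i, m = Finsupp.single i 1
  · obtain ⟨i, rfl⟩ := h
    right
    exact ⟨i, rfl, coeff_lin_single u i⟩
  · left
    show lin u m = 0
    unfold lin
    refine Finset.sum_eq_zero fun i _ => ?_
    rw [if_neg]
    intro h'
    exact h ⟨i, h'⟩

theorem lin_mem (u : ℕ → K) : lin u ∈ bddSeries K := by
  refine ⟨1, fun m hm => ?_⟩
  rcases coeff_lin_cases u m with h | ⟨i, rfl, -⟩
  · exact h
  · simp at hm

/-- If `u_i ^ p ∈ A` for all `i` and the `u_i` have no common denominator, then `R` is not a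
polynomial algebra over `R♭`. -/
theorem general (p : ℕ) [hp : Fact p.Prime] [CharP K p] (u : ℕ → K)
    (h1 : ∀ i, ∃ c : A, algebraMap A K c = (u i) ^ p)
    (h2 : ∀ a : A, a ≠ 0 → ∃ i, ∀ c : A, algebraMap A K c ≠ algebraMap A K a * u i)
    (I : Type w) : ¬ IsPolyOver A K I := by
  rintro ⟨e⟩
  set l : bddSeries K := ⟨lin u, lin_mem u⟩ with hl
  have hlp : l ^ p ∈ flat A K := by
    refine ⟨1, one_ne_zero, fun m => ?_⟩
    rw [map_one, one_mul]
    have : coeff m ((lin u) ^ p) ∈ (algebraMap A K).range := by
      apply coeff_pow_mem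
      intro d
      rcases coeff_lin_cases u d with h | ⟨i, -, hi⟩
      · rw [h, zero_pow hp.out.ne_zero]
        exact Subring.zero_mem _
      · rw [hi]
        exact h1 i
    exact this
  have hnot : l ∉ flat A K := by
    rintro ⟨a, ha, ha'⟩
    obtain ⟨i, hi⟩ := h2 a ha
    obtain ⟨c, hc⟩ := ha' (Finsupp.single i 1)
    have : coeff (Finsupp.single i 1) (l : MvPowerSeries ℕ K) = u i := coeff_lin_single u i
    rw [this] at hc
    exact hi c hc
  have hnz : NoZeroDivisors (MvPowerSeries ℕ K) := inferInstance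
  have hdomR : IsDomain (MvPowerSeries ℕ K) := NoZeroDivisors.to_isDomain _
  have hdomB : IsDomain (bddSeries K) := inferInstance
  have hdomF : IsDomain (flat A K) := inferInstance
  have hdeg : (e.symm l).totalDegree = 0 := by
    have h3 : (e.symm l) ^ p = MvPolynomial.C ⟨l ^ p, hlp⟩ := by
      rw [← map_pow, ← MvPolynomial.algebraMap_eq, ← e.symm.commutes]
      rfl
    have h4 := congrArg MvPolynomial.totalDegree h3
    rw [totalDegree_pow', MvPolynomial.totalDegree_C] at h4
    rcases Nat.mul_eq_zero.1 h4 with h | h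
    · exact absurd h hp.out.ne_zero
    · exact h
  rw [MvPolynomial.totalDegree_eq_zero_iff_eq_C] at hdeg
  have h5 := congrArg e hdeg
  rw [AlgEquiv.apply_symm_apply, ← MvPolynomial.algebraMap_eq, e.commutes] at h5
  apply hnot
  rw [h5]
  exact (MvPolynomial.coeff 0 (e.symm l)).2

end general

section example_

/-- The exponent monoid: finitely supported functions `ℕ → ℚ≥0` all of whose values are `0`
or at least `2`. -/
def M : AddSubmonoid (ℕ →₀ ℚ≥0) where
  carrier := {r | ∀ i, r i = 0 ∨ 2 ≤ r i}
  add_mem' := by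
    intro r s hr hs i
    rw [Finsupp.add_apply]
    rcases hr i with h | h
    · rw [h, zero_add]
      exact hs i
    · right
      exact h.trans le_self_add
  zero_mem' := fun i => Or.inl rfl

/-- The domain `A`. -/
abbrev Aex (p : ℕ) : Type := AddMonoidAlgebra (ZMod p) M

variable (p : ℕ) [hp : Fact p.Prime]

instance : UniqueSums M :=
  UniqueSums.of_injective_addHom (M.subtype : M →+ (ℕ →₀ ℚ≥0)).toAddHom
    Subtype.val_injective inferInstance

instance : IsDomain (Aex p) := NoZeroDivisors.to_isDomain _

instance : CharP (Aex p) p := by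
  have : Function.Injective (algebraMap (ZMod p) (Aex p)) :=
    (algebraMap (ZMod p) (Aex p)).injective
  exact charP_of_injective_algebraMap this p

/-- The fraction field. -/
abbrev Kex : Type := FractionRing (Aex p)

instance : CharP (Kex p) p :=
  charP_of_injective_algebraMap (IsFractionRing.injective (Aex p) (Kex p)) p

/-- The monomial with exponent `r`. -/
noncomputable def s (r : M) : Aex p := AddMonoidAlgebra.single r 1

theorem s_mul (r t : M) : s p r * s p t = s p (r + t) := by
  simp [s, AddMonoidAlgebra.single_mul_single]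

theorem s_pow (r : M) (n : ℕ) : s p r ^ n = s p (n • r) := by
  simp [s, AddMonoidAlgebra.single_pow]

theorem s_ne_zero (r : M) : algebraMap (Aex p) (Kex p) (s p r) ≠ 0 := by
  rw [Ne, map_eq_zero_iff _ (IsFractionRing.injective (Aex p) (Kex p))]
  intro h
  have := congrArg (fun x => x.coeff r) h
  simp [s] at this

/-- The exponent `c • r` for `c ≥ 1`. -/
noncomputable def scale (c : ℚ≥0) (hc : 1 ≤ c) (r : M) : M :=
  ⟨c • (r : ℕ →₀ ℚ≥0), fun i => by
    rw [Finsupp.smul_apply]
    rcases r.2 i with h | h
    · left; rw [h, smul_zero]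
    · right
      rw [smul_eq_mul]
      exact h.trans (le_mul_of_one_le_left zero_le hc)⟩

theorem exists_root (a : Aex p) : algebraMap (Aex p) (Kex p) a ∈ (frobenius (Kex p) p).range := by
  induction a using AddMonoidAlgebra.induction_linear with
  | zero => rw [map_zero]; exact Subring.zero_mem _
  | add x y hx hy => rw [map_add]; exact Subring.add_mem _ hx hy
  | single r c =>
    have h0 : (AddMonoidAlgebra.single r c : Aex p) = algebraMap (ZMod p) (Aex p) c * s p r := by
      simp [s, AddMonoidAlgebra.single_mul_single]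
    rw [h0, map_mul]
    apply Subring.mul_mem
    · refine ⟨algebraMap (Aex p) (Kex p) (algebraMap (ZMod p) (Aex p) c), ?_⟩
      rw [frobenius_def, ← map_pow, ← map_pow, ZMod.pow_card]
    · have hc : (1 : ℚ≥0) ≤ 1 + 1 / p := le_self_add
      refine ⟨algebraMap (Aex p) (Kex p) (s p (scale (1 + 1 / p) hc r)) /
        algebraMap (Aex p) (Kex p) (s p r), ?_⟩
      have hne := s_ne_zero p r
      rw [frobenius_def, div_pow, div_eq_iff (pow_ne_zero _ hne), ← map_pow, ← map_pow, ← map_mul,
        s_pow, s_pow, s_mul]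
      congr 2
      apply Subtype.ext
      apply Finsupp.ext
      intro i
      have hp0 : (p : ℚ≥0) ≠ 0 := by exact_mod_cast hp.out.ne_zero
      simp only [scale, AddSubmonoidClass.coe_nsmul, AddSubmonoid.coe_add, Finsupp.smul_apply,
        Finsupp.add_apply, nsmul_eq_mul, smul_eq_mul]
      field_simp
      ring

instance : PerfectField (Kex p) := by
  have hsurj : Function.Surjective (frobenius (Kex p) p) := by
    intro x
    obtain ⟨a, b, hb, rfl⟩ := IsFractionRing.div_surjective (A := Aex p) x
    obtain ⟨y, hy⟩ := exists_root p a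
    obtain ⟨z, hz⟩ := exists_root p b
    exact ⟨y / z, by rw [map_div₀, hy, hz]⟩
  have : PerfectRing (Kex p) p := PerfectRing.ofSurjective _ _ hsurj
  exact PerfectRing.toPerfectField (Kex p) p

/-- The exponent `c e_i` for `c ≥ 2`. -/
noncomputable def e (c : ℚ≥0) (hc : 2 ≤ c) (i : ℕ) : M :=
  ⟨Finsupp.single i c, fun j => by
    classical
    rw [Finsupp.single_apply]
    split
    · right; exact hc
    · left; rfl⟩

/-- The elements `u_i`, the quotient of the monomials with exponents `3 e_i` and `2 e_i`. -/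
noncomputable def ue (i : ℕ) : Kex p :=
  algebraMap (Aex p) (Kex p) (s p (e 3 (by norm_num) i)) /
    algebraMap (Aex p) (Kex p) (s p (e 2 le_rfl i))

theorem ue_pow (i : ℕ) : ∃ c : Aex p, algebraMap (Aex p) (Kex p) c = (ue p i) ^ p := by
  have h2 : (2 : ℚ≥0) ≤ p := by exact_mod_cast hp.out.two_le
  refine ⟨s p (e p h2 i), ?_⟩
  unfold ue
  rw [div_pow, eq_div_iff (pow_ne_zero _ (s_ne_zero p _)), ← map_pow, ← map_pow, ← map_mul,
    s_pow, s_pow, s_mul]
  congr 2
  apply Subtype.ext
  show Finsupp.single i (p : ℚ≥0) + p • Finsupp.single i (2 : ℚ≥0) =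
    p • Finsupp.single i (3 : ℚ≥0)
  rw [Finsupp.smul_single, Finsupp.smul_single, ← Finsupp.single_add]
  congr 1
  simp only [nsmul_eq_mul]
  ring

theorem ue_denominators (a : Aex p) (ha : a ≠ 0) :
    ∃ i, ∀ c : Aex p, algebraMap (Aex p) (Kex p) c ≠ algebraMap (Aex p) (Kex p) a * ue p i := by
  classical
  -- a term of `a` and a variable not occurring in it
  have hco : a.coeff ≠ 0 := by
    intro h
    apply ha
    cases a
    simp only at h
    rw [h]
    rfl
  obtain ⟨r, hr⟩ := Finsupp.support_nonempty_iff.2 hco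
  obtain ⟨i, hi⟩ := Infinite.exists_notMem_finset (r : ℕ →₀ ℚ≥0).support
  rw [Finsupp.notMem_support_iff] at hi
  refine ⟨i, fun c hc => ?_⟩
  unfold ue at hc
  rw [mul_div_assoc', eq_div_iff (s_ne_zero p _), ← map_mul, ← map_mul] at hc
  have hc' := IsFractionRing.injective (Aex p) (Kex p) hc
  have h1 : (c * s p (e 2 le_rfl i)).coeff (r + e 3 (by norm_num) i) =
      (a * s p (e 3 (by norm_num) i)).coeff (r + e 3 (by norm_num) i) := by rw [hc']
  rw [s, s, AddMonoidAlgebra.coeff_mul_single_of_forall_add_ne,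
    AddMonoidAlgebra.coeff_mul_single_eq_coeff_mul (m₂ := r)] at h1
  · rw [mul_one] at h1
    exact (Finsupp.mem_support_iff.1 hr) h1.symm
  · intro m' _
    exact add_left_inj _
  · intro d hd
    have h3 := congrArg (fun x : M => (x : ℕ →₀ ℚ≥0) i) hd
    simp only [AddSubmonoid.coe_add, Finsupp.add_apply, e, Finsupp.single_eq_same, hi,
      zero_add] at h3
    rcases d.2 i with h | h
    · rw [h] at h3
      norm_num at h3
    · have : (2 : ℚ≥0) + 2 ≤ 3 := by
        rw [← h3]
        gcongr
      norm_num at this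

end example_

/-- For every prime `p` there is an integral domain `A` of characteristic `p` with perfect
fraction field `K` such that the ring `R` is not isomorphic, as an `R♭`-algebra, to a polynomial
ring over `R♭` in any set of variables. -/
theorem result (p : ℕ) (hp : p.Prime) :
    ∃ (A : Type) (_ : CommRing A) (_ : IsDomain A),
      CharP A p ∧ PerfectField (FractionRing A) ∧
      ∀ I : Type w, ¬ IsPolyOver A (FractionRing A) I := by
  have : Fact p.Prime := ⟨hp⟩
  exact ⟨Aex p, inferInstance, inferInstance, inferInstance, inferInstance,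
    general p (ue p) (ue_pow p) (ue_denominators p)⟩

end Pool.Agent.Results.MP_5fe329_al.NotPolynomial
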